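import Pool.Agent.W859.DR

set_option autoImplicit false
open Filter Topology Finset

namespace Pool.Agent.W859.DR

/-- iterates of the law -/
noncomputable def law (p0 : ℕ → ℝ) : ℕ → ℕ → ℝ
  | 0 => p0
  | n + 1 => step (law p0 n)

/-- iterates of the exponential moment -/
noncomputable def mom (p0 : ℕ → ℝ) (a0 : ℝ) : ℕ → ℝ
  | 0 => a0
  | n + 1 => ((mom p0 a0 n) ^ 2 + law p0 n 0 ^ 2) / 2

theorem good_law {p0 : ℕ → ℝ} {a0 : ℝ} (h : Good p0 a0) (n : ℕ) :
    Good (law p0 n) (mom p0 a0 n) := by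
  induction n with
  | zero => exact h
  | succ n ih => exact ih.step

theorem trunc_prod {p0 : ℕ → ℝ} {a0 : ℝ} (h : Good p0 a0) (n c : ℕ) :
    trunc p0 (n + c) * ∏ j ∈ range n, mom p0 a0 j ≤ trunc (law p0 n) c := by
  induction n generalizing c with
  | zero => simp [law]
  | succ n ih =>
    have h1 := ih (c + 1)
    have h2 := (good_law h n).trunc_step c
    have h3 := (good_law h n).one_le
    rw [Finset.prod_range_succ, ← mul_assoc]
    have h4 : n + 1 + c = n + (c + 1) := by ring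
    rw [h4]
    exact (mul_le_mul_of_nonneg_right h1 (by linarith)).trans h2

/-- Lower bound `g_n > 1/n` from a lower bound on `1 - q_n`. -/
theorem lower {a q : ℕ → ℝ} (ha : ∀ n, 1 ≤ a n) (hq0 : ∀ n, 0 ≤ q n) (hq1 : ∀ n, q n ≤ 1)
    (hrec : ∀ n, a (n + 1) = ((a n) ^ 2 + q n ^ 2) / 2) {N : ℕ} (hN : 1 ≤ N)
    (hr : ∀ n : ℕ, N ≤ n → 3.6 / (n : ℝ) ^ 2 ≤ 1 - q n) (n : ℕ) (hn : N ≤ n) :
    1 + 1 / (n : ℝ) < a n := by
  by_contra hcon
  push Not at hcon
  have hkey : ∀ k : ℕ, a (n + 1 + k) ≤ 1 + 1 / ((n + 1 + k : ℕ) : ℝ) - 0.3 / (n : ℝ) ^ 2 := by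
    have hst : ∀ j : ℕ, N ≤ j → a j ≤ 1 + 1 / (j : ℝ) →
        a (j + 1) - (1 + 1 / ((j + 1 : ℕ) : ℝ)) ≤ a j - (1 + 1 / (j : ℝ)) - 0.3 / (j : ℝ) ^ 2 := by
      intro j hj haj
      have hj0 : (0 : ℝ) < j := by exact_mod_cast (by omega : 0 < j)
      have h1 := hr j hj
      have h2 := hq0 j
      have h3 := hq1 j
      have h4 := ha j
      rw [hrec]
      have h5 : (q j) ^ 2 ≤ 1 - (1 - q j) := by nlinarith
      have h6 : (a j - 1) ^ 2 ≤ (1 / (j : ℝ)) ^ 2 := by
        apply pow_le_pow_left₀ (by linarith); linarith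
      have h7 : 1 / (j : ℝ) - 1 / ((j + 1 : ℕ) : ℝ) ≤ 1 / (j : ℝ) ^ 2 := by
        push_cast
        rw [div_sub_div _ _ hj0.ne' (by positivity), div_le_div_iff₀ (by positivity) (by positivity)]
        nlinarith
      have h8 : (1 / (j : ℝ)) ^ 2 = 1 / (j : ℝ) ^ 2 := by rw [div_pow, one_pow]
      have h9 : (3.6 : ℝ) / (j : ℝ) ^ 2 = 3.6 * (1 / (j : ℝ) ^ 2) := by ring
      have h10 : (0.3 : ℝ) / (j : ℝ) ^ 2 = 0.3 * (1 / (j : ℝ) ^ 2) := by ring
      rw [h8] at h6
      rw [h9] at h1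
      rw [h10]
      nlinarith
    intro k
    induction k with
    | zero =>
      have := hst n hn hcon
      simp only [add_zero]
      linarith
    | succ k ih =>
      have h1 : a (n + 1 + k) ≤ 1 + 1 / ((n + 1 + k : ℕ) : ℝ) := by
        have : 0 ≤ 0.3 / (n : ℝ) ^ 2 := by positivity
        linarith
      have h2 := hst (n + 1 + k) (by omega) h1
      have h3 : 0 ≤ 0.3 / ((n + 1 + k : ℕ) : ℝ) ^ 2 := by positivity
      have h4 : n + 1 + (k + 1) = n + 1 + k + 1 := by ring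
      rw [h4]
      linarith
  have hn0 : (0 : ℝ) < n := by exact_mod_cast (by omega : 0 < n)
  obtain ⟨k, hk⟩ := exists_nat_gt ((n : ℝ) ^ 2 / 0.3)
  have h1 := hkey k
  have h2 := ha (n + 1 + k)
  have hk0 : (0 : ℝ) < ((n + 1 + k : ℕ) : ℝ) := by positivity
  have h3 : 1 / ((n + 1 + k : ℕ) : ℝ) < 0.3 / (n : ℝ) ^ 2 := by
    rw [div_lt_div_iff₀ hk0 (by positivity)]
    rw [div_lt_iff₀ (by norm_num)] at hk
    push_cast
    nlinarith
  linarith

theorem prod_lower {a : ℕ → ℝ} (ha : ∀ n, 1 ≤ a n) {N : ℕ} (hN : 1 ≤ N)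
    (h : ∀ n : ℕ, N ≤ n → 1 + 1 / (n : ℝ) < a n) (n : ℕ) (hn : N ≤ n) :
    (n : ℝ) / N ≤ ∏ j ∈ range n, a j := by
  have hN0 : (0 : ℝ) < N := by exact_mod_cast (by omega : 0 < N)
  induction n, hn using Nat.le_induction with
  | base =>
    rw [div_self hN0.ne']
    have := Finset.prod_le_prod (s := range N) (f := fun _ => (1 : ℝ)) (g := a)
      (fun _ _ => zero_le_one) (fun i _ => ha i)
    simpa using this
  | succ n hn ih =>
    have hn0 : (0 : ℝ) < n := by exact_mod_cast (by omega : 0 < n)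
    rw [Finset.prod_range_succ]
    have h1 := h n hn
    have h2 : (((n + 1 : ℕ) : ℝ)) / N = (n : ℝ) / N * (1 + 1 / n) := by
      push_cast; field_simp
    rw [h2]
    exact mul_le_mul ih h1.le (by positivity) (le_trans (by positivity) ih)


/-- heavy tail weights -/
noncomputable def w (k : ℕ) : ℝ := (k : ℝ) ^ (-(5 / 2) : ℝ)

theorem w_zero : w 0 = 0 := by
  unfold w
  simp only [Nat.cast_zero]
  exact Real.zero_rpow (by norm_num)

theorem w_nonneg (k : ℕ) : 0 ≤ w k := Real.rpow_nonneg (by positivity) _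

theorem w_summable : Summable w := Real.summable_nat_rpow.mpr (by norm_num)

theorem kw_summable : Summable fun k : ℕ => (k : ℝ) * w k := by
  have h : Summable fun k : ℕ => (k : ℝ) ^ (-(3 / 2) : ℝ) := Real.summable_nat_rpow.mpr (by norm_num)
  refine h.congr fun k => ?_
  rcases Nat.eq_zero_or_pos k with rfl | hk
  · rw [w_zero]
    simp only [Nat.cast_zero, mul_zero]
    exact Real.zero_rpow (by norm_num)
  · have hk0 : (0 : ℝ) < k := by exact_mod_cast hk
    unfold w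
    nth_rewrite 2 [← Real.rpow_one (k : ℝ)]
    rw [← Real.rpow_add hk0]
    norm_num

theorem wd_summable : Summable fun k : ℕ => w k / 2 ^ k := by
  refine Summable.of_nonneg_of_le (fun k => div_nonneg (w_nonneg k) (by positivity)) ?_ w_summable
  intro k
  exact div_le_self (w_nonneg k) (one_le_pow₀ (by norm_num))

noncomputable def S0 : ℝ := ∑' k, w k
noncomputable def S2 : ℝ := ∑' k : ℕ, w k / 2 ^ k
noncomputable def S3 : ℝ := ∑' k : ℕ, (k : ℝ) * w k

theorem S31_pos : 0 < S3 - S0 := by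
  have h := kw_summable.hasSum.sub w_summable.hasSum
  have h1 : ∀ k : ℕ, 0 ≤ (k : ℝ) * w k - w k := by
    intro k
    rcases Nat.eq_zero_or_pos k with rfl | hk
    · simp [w_zero]
    · have hk0 : (1 : ℝ) ≤ k := by exact_mod_cast hk
      have := w_nonneg k
      nlinarith
  have h2 := le_hasSum h 2 fun k _ => h1 k
  have h3 : 0 < w 2 := Real.rpow_pos_of_pos (by norm_num) _
  have h4 : 0 < ((2 : ℕ) : ℝ) * w 2 - w 2 := by push_cast; linarith
  exact lt_of_lt_of_le h4 h2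

theorem S2_pos : 0 < S2 := by
  have h3 : 0 < w 2 := Real.rpow_pos_of_pos (by norm_num) _
  have h2 := le_hasSum wd_summable.hasSum 2 fun k _ => div_nonneg (w_nonneg k) (by positivity)
  exact lt_of_lt_of_le (by positivity) h2

/-- the normalisation -/
noncomputable def cc : ℝ := 1 / (S3 - S0 + S2)

theorem cc_pos : 0 < cc := by
  have := S31_pos
  have := S2_pos
  unfold cc
  positivity

/-- the initial law -/
noncomputable def p0 (k : ℕ) : ℝ := cc * (w k / 2 ^ k + if k = 0 then S3 - S0 else 0)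

theorem p0_weight (k : ℕ) : p0 k * 2 ^ k = cc * (w k + if k = 0 then S3 - S0 else 0) := by
  unfold p0
  split_ifs with h
  · subst h; simp
  · rw [add_zero, add_zero]; field_simp

theorem good_p0 : Good p0 (cc * S3) where
  nonneg k := by
    have h1 := w_nonneg k
    have h2 := cc_pos
    have h3 := S31_pos
    unfold p0
    refine mul_nonneg h2.le (add_nonneg (by positivity) ?_)
    split_ifs
    · exact h3.le
    · exact le_rfl
  one := by
    have h := (wd_summable.hasSum.add (hasSum_ite_eq (0 : ℕ) (S3 - S0))).mul_left cc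
    have h2 : cc * ((∑' k : ℕ, w k / 2 ^ k) + (S3 - S0)) = 1 := by
      have h3 := S31_pos
      have h4 := S2_pos
      have h5 : (∑' k : ℕ, w k / 2 ^ k) = S2 := rfl
      rw [h5]
      unfold cc
      field_simp
      ring
    rw [h2] at h
    exact h
  expo := by
    have h := (w_summable.hasSum.add (hasSum_ite_eq (0 : ℕ) (S3 - S0))).mul_left cc
    have h2 : cc * ((∑' k : ℕ, w k) + (S3 - S0)) = cc * S3 := by
      have h5 : (∑' k : ℕ, w k) = S0 := rfl
      rw [h5]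
      ring
    rw [h2] at h
    simp_rw [p0_weight]
    exact h
  lin := by
    have h := kw_summable.hasSum.mul_left cc
    have h5 : (∑' k : ℕ, (k : ℝ) * w k) = S3 := rfl
    rw [h5] at h
    simp_rw [p0_weight]
    refine h.congr_fun ?_
    intro k
    split_ifs with h6
    · subst h6; simp
    · ring

theorem p00_pos : 0 < p0 0 := by
  unfold p0
  rw [if_pos rfl, w_zero]
  have := S31_pos
  have := cc_pos
  simp only [zero_div, zero_add]
  positivity

theorem trunc_lower (n : ℕ) (hn : 1 ≤ n) : cc / 16 * (n : ℝ) ^ (-(1 / 2) : ℝ) ≤ trunc p0 n := by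
  have hn0 : (0 : ℝ) < n := by exact_mod_cast (by omega : 0 < n)
  have h1 := (good_p0.trunc_summable n)
  have h2 : ∑ k ∈ Finset.Ico (2 * n) (4 * n), ((k - n : ℕ) : ℝ) * (p0 k * 2 ^ k) ≤ trunc p0 n := by
    refine h1.sum_le_tsum _ fun k _ => ?_
    exact mul_nonneg (by positivity) (mul_nonneg (good_p0.nonneg k) (by positivity))
  refine le_trans ?_ h2
  have h3 : ∀ k ∈ Finset.Ico (2 * n) (4 * n), (n : ℝ) * (cc * (4 * n : ℝ) ^ (-(5 / 2) : ℝ)) ≤
      ((k - n : ℕ) : ℝ) * (p0 k * 2 ^ k) := by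
    intro k hk
    obtain ⟨hk1, hk2⟩ := Finset.mem_Ico.mp hk
    have hk0 : (0 : ℝ) < k := by exact_mod_cast (by omega : 0 < k)
    rw [p0_weight, if_neg (by omega), add_zero]
    have h4 : (n : ℝ) ≤ ((k - n : ℕ) : ℝ) := by exact_mod_cast (by omega : n ≤ k - n)
    have h5 : (4 * n : ℝ) ^ (-(5 / 2) : ℝ) ≤ w k := by
      unfold w
      refine Real.rpow_le_rpow_of_nonpos hk0 ?_ (by norm_num)
      exact_mod_cast hk2.le
    have h6 := cc_pos
    refine mul_le_mul h4 (mul_le_mul_of_nonneg_left h5 h6.le) (by positivity) (by positivity)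
  have h4 := Finset.sum_le_sum h3
  refine le_trans (le_of_eq ?_) h4
  rw [Finset.sum_const, Nat.card_Ico, nsmul_eq_mul]
  have h5 : ((4 * n - 2 * n : ℕ) : ℝ) = 2 * n := by
    have : 4 * n - 2 * n = 2 * n := by omega
    rw [this]; push_cast; ring
  rw [h5, Real.mul_rpow (by norm_num) hn0.le]
  have h6 : (4 : ℝ) ^ (-(5 / 2) : ℝ) = 1 / 32 := by
    have : (4 : ℝ) = 2 ^ (2 : ℝ) := by norm_num
    rw [this, ← Real.rpow_mul (by norm_num)]
    norm_num
  have h7 : (n : ℝ) ^ (-(5 / 2) : ℝ) * (n : ℝ) ^ 2 = (n : ℝ) ^ (-(1 / 2) : ℝ) := by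
    rw [← Real.rpow_natCast, ← Real.rpow_add hn0]
    norm_num
  rw [h6, ← h7]
  ring

/-- The contradiction. -/
theorem final (N : ℕ) (hN : 1 ≤ N)
    (hr : ∀ n : ℕ, N ≤ n → 3.6 / (n : ℝ) ^ 2 ≤ 1 - law p0 n 0) : False := by
  set a := mom p0 (cc * S3) with ha
  have hg := fun n => good_law good_p0 n
  have ha1 : ∀ n, 1 ≤ a n := fun n => (hg n).one_le
  have h1 : ∀ n : ℕ, N ≤ n → 1 + 1 / (n : ℝ) < a n := by
    intro n hn
    exact lower (q := fun n => law p0 n 0) ha1 (fun n => (hg n).nonneg 0) (fun n => (hg n).p0_le)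
      (fun n => rfl) hN hr n hn
  have h2 := prod_lower ha1 hN h1
  have hN0 : (0 : ℝ) < N := by exact_mod_cast (by omega : 0 < N)
  have hc := cc_pos
  have h3 : ∀ n : ℕ, N ≤ n → cc / 16 * (n : ℝ) ^ (-(1 / 2) : ℝ) * ((n : ℝ) / N) ≤ 2 := by
    intro n hn
    have h4 := trunc_prod good_p0 n 0
    rw [(hg n).trunc_zero] at h4
    have h5 := (hg n).le_two
    have h6 := trunc_lower n (by omega)
    have h7 := h2 n hn
    have h8 : 0 ≤ (n : ℝ) / N := by positivity
    have h9 : 0 ≤ trunc p0 n := le_trans (by positivity) h6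
    calc cc / 16 * (n : ℝ) ^ (-(1 / 2) : ℝ) * ((n : ℝ) / N)
        ≤ trunc p0 n * ∏ j ∈ range n, a j := mul_le_mul h6 h7 h8 h9
      _ ≤ 2 := le_trans h4 h5
  -- take n large
  obtain ⟨M, hM⟩ := exists_nat_gt (32 * (N : ℝ) / cc)
  have h4 := h3 ((N + M) ^ 2) (by nlinarith [Nat.zero_le M])
  have hNM : (0 : ℝ) < (N + M : ℝ) := by positivity
  have h5 : (((N + M) ^ 2 : ℕ) : ℝ) ^ (-(1 / 2) : ℝ) = 1 / (N + M) := by
    push_cast
    rw [← Real.rpow_natCast, ← Real.rpow_mul hNM.le]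
    norm_num
    rw [Real.rpow_neg_one]
  rw [h5] at h4
  push_cast at h4
  have h6 : cc / 16 * (1 / ((N : ℝ) + M)) * (((N : ℝ) + M) ^ 2 / N) = cc * (N + M) / (16 * N) := by
    field_simp
  rw [h6, div_le_iff₀ (by positivity)] at h4
  rw [div_lt_iff₀ hc] at hM
  nlinarith

end Pool.Agent.W859.DR
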