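import Mathlib

set_option autoImplicit false
open Filter Topology Finset

namespace Pool.Agent.W859.DR

/-- One step of the recursion (two copies), written with antidiagonals. -/
noncomputable def step (p : ℕ → ℝ) (k : ℕ) : ℝ :=
  (∑ ij ∈ antidiagonal (k + 1), p ij.1 * p ij.2) + (if k = 0 then p 0 ^ 2 else 0)

theorem sum_fin2 (f : ℕ → ℝ) (k : ℕ) :
    (∑ x : Fin 2 → Fin (k + 2), if (∑ i, (x i : ℕ)) = k + 1 then ∏ i, f (x i) else 0) =
      ∑ ij ∈ antidiagonal (k + 1), f ij.1 * f ij.2 := by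
  rw [← Finset.sum_filter]
  refine Finset.sum_bij' (fun x _ => ((x 0 : ℕ), (x 1 : ℕ)))
    (fun ij h => ![⟨ij.1, by have := Finset.HasAntidiagonal.mem_antidiagonal.mp h; omega⟩,
      ⟨ij.2, by have := Finset.HasAntidiagonal.mem_antidiagonal.mp h; omega⟩]) ?_ ?_ ?_ ?_ ?_
  · intro x hx
    simp only [Finset.mem_filter, Finset.mem_univ, true_and, Fin.sum_univ_two] at hx
    simpa using hx
  · intro ij h
    have := Finset.HasAntidiagonal.mem_antidiagonal.mp h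
    simp [Fin.sum_univ_two, this]
  · intro x hx
    funext i
    fin_cases i <;> simp
  · intro ij h
    simp
  · intro x hx
    simp [Fin.prod_univ_two]

theorem conv {f g : ℕ → ℝ} {a b : ℝ} (hf0 : ∀ k, 0 ≤ f k) (hg0 : ∀ k, 0 ≤ g k)
    (hf : HasSum f a) (hg : HasSum g b) :
    HasSum (fun k => ∑ ij ∈ antidiagonal k, f ij.1 * g ij.2) (a * b) := by
  have h1 : Summable fun x : ℕ × ℕ => f x.1 * g x.2 :=
    hf.summable.mul_of_nonneg hg.summable hf0 hg0
  have h2 := summable_sum_mul_antidiagonal_of_summable_mul h1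
  have h3 := hf.summable.tsum_mul_tsum_eq_tsum_sum_antidiagonal hg.summable h1
  rw [hf.tsum_eq, hg.tsum_eq] at h3
  rw [h3]
  exact h2.hasSum

/-- The class of critical laws together with the two exponential moments. -/
structure Good (p : ℕ → ℝ) (a : ℝ) : Prop where
  nonneg : ∀ k, 0 ≤ p k
  one : HasSum p 1
  expo : HasSum (fun k => p k * 2 ^ k) a
  lin : HasSum (fun k : ℕ => (k : ℝ) * (p k * 2 ^ k)) a

theorem step_weight (p : ℕ → ℝ) (k : ℕ) : step p k * 2 ^ k =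
    (1 / 2) * (∑ ij ∈ antidiagonal (k + 1), (p ij.1 * 2 ^ ij.1) * (p ij.2 * 2 ^ ij.2)) +
      (if k = 0 then p 0 ^ 2 else 0) := by
  unfold step
  rw [add_mul, Finset.sum_mul, Finset.mul_sum]
  congr 1
  · refine Finset.sum_congr rfl fun ij h => ?_
    have h1 : ij.1 + ij.2 = k + 1 := Finset.HasAntidiagonal.mem_antidiagonal.mp h
    have h2 : (2 : ℝ) ^ ij.1 * 2 ^ ij.2 = 2 ^ k * 2 := by rw [← pow_add, h1, pow_succ]
    linear_combination (-(1 / 2 : ℝ) * p ij.1 * p ij.2) * h2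
  · split_ifs with h
    · subst h; simp
    · simp

theorem shift {F : ℕ → ℝ} {a : ℝ} (h : HasSum F a) : HasSum (fun k => F (k + 1)) (a - F 0) := by
  have := (hasSum_nat_add_iff' (f := F) 1).mpr h
  simpa using this

theorem Good.step {p : ℕ → ℝ} {a : ℝ} (h : Good p a) :
    Good (step p) ((a ^ 2 + p 0 ^ 2) / 2) := by
  have hf0 : ∀ k, 0 ≤ p k * 2 ^ k := fun k => mul_nonneg (h.nonneg k) (by positivity)
  have hF := conv hf0 hf0 h.expo h.expo
  have hg0 : ∀ k : ℕ, 0 ≤ (k : ℝ) * (p k * 2 ^ k) := fun k => mul_nonneg (by positivity) (hf0 k)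
  have hG := (conv hg0 hf0 h.lin h.expo).add (conv hf0 hg0 h.expo h.lin)
  have hG' : HasSum (fun k : ℕ => (k : ℝ) *
      ∑ ij ∈ antidiagonal k, (p ij.1 * 2 ^ ij.1) * (p ij.2 * 2 ^ ij.2)) (a * a + a * a) := by
    refine hG.congr_fun ?_ |> fun h => h
    intro k
    rw [← Finset.sum_add_distrib, Finset.mul_sum]
    refine Finset.sum_congr rfl fun ij h => ?_
    have h1 : ij.1 + ij.2 = k := Finset.HasAntidiagonal.mem_antidiagonal.mp h
    rw [← h1]; push_cast; ring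
  refine ⟨?_, ?_, ?_, ?_⟩
  · intro k
    unfold DR.step
    have : 0 ≤ ∑ ij ∈ antidiagonal (k + 1), p ij.1 * p ij.2 :=
      Finset.sum_nonneg fun ij _ => mul_nonneg (h.nonneg _) (h.nonneg _)
    split_ifs
    · positivity
    · simpa using this
  · have h1 := (shift (conv h.nonneg h.nonneg h.one h.one)).add
      (hasSum_ite_eq (0 : ℕ) (p 0 ^ 2))
    have h2 : (1 * 1 - ∑ ij ∈ antidiagonal 0, p ij.1 * p ij.2) + p 0 ^ 2 = 1 := by
      simp [sq]
    rw [h2] at h1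
    exact h1
  · have h1 := ((shift hF).mul_left (1 / 2)).add (hasSum_ite_eq (0 : ℕ) (p 0 ^ 2))
    have h2 : (1 / 2) * (a * a - ∑ ij ∈ antidiagonal 0, (p ij.1 * 2 ^ ij.1) * (p ij.2 * 2 ^ ij.2))
        + p 0 ^ 2 = (a ^ 2 + p 0 ^ 2) / 2 := by
      simp; ring
    rw [h2] at h1
    refine h1.congr_fun ?_
    intro k
    exact step_weight p k
  · have h1 := ((shift hG').sub (shift hF)).mul_left (1 / 2)
    have h2 : (1 / 2) * (a * a + a * a - ((0 : ℕ) : ℝ) *
          ∑ ij ∈ antidiagonal 0, (p ij.1 * 2 ^ ij.1) * (p ij.2 * 2 ^ ij.2) -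
        (a * a - ∑ ij ∈ antidiagonal 0, (p ij.1 * 2 ^ ij.1) * (p ij.2 * 2 ^ ij.2)))
        = (a ^ 2 + p 0 ^ 2) / 2 := by
      simp; ring
    rw [h2] at h1
    refine h1.congr_fun ?_
    intro k
    rw [step_weight]
    rcases Nat.eq_zero_or_pos k with rfl | hk
    · simp
    · rw [if_neg (by omega)]
      push_cast
      ring


/-- The truncated functional. -/
noncomputable def trunc (p : ℕ → ℝ) (c : ℕ) : ℝ := ∑' k : ℕ, ((k - c : ℕ) : ℝ) * (p k * 2 ^ k)

theorem Good.trunc_summable {p : ℕ → ℝ} {a : ℝ} (h : Good p a) (c : ℕ) :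
    Summable fun k : ℕ => ((k - c : ℕ) : ℝ) * (p k * 2 ^ k) := by
  refine Summable.of_nonneg_of_le ?_ ?_ h.lin.summable
  · intro k; exact mul_nonneg (by positivity) (mul_nonneg (h.nonneg k) (by positivity))
  · intro k
    refine mul_le_mul_of_nonneg_right ?_ (mul_nonneg (h.nonneg k) (by positivity))
    exact_mod_cast Nat.sub_le k c

theorem Good.trunc_step {p : ℕ → ℝ} {a : ℝ} (h : Good p a) (c : ℕ) :
    trunc p (c + 1) * a ≤ trunc (DR.step p) c := by
  have hf0 : ∀ k, 0 ≤ p k * 2 ^ k := fun k => mul_nonneg (h.nonneg k) (by positivity)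
  have hg0 : ∀ k : ℕ, 0 ≤ ((k - (c + 1) : ℕ) : ℝ) * (p k * 2 ^ k) :=
    fun k => mul_nonneg (by positivity) (hf0 k)
  have hT : HasSum (fun k : ℕ => ((k - (c + 1) : ℕ) : ℝ) * (p k * 2 ^ k)) (trunc p (c + 1)) :=
    (h.trunc_summable (c + 1)).hasSum
  have hG := ((conv hg0 hf0 hT h.expo).add (conv hf0 hg0 h.expo hT))
  have hG1 := (shift hG).mul_left (1 / 2)
  have h2 : (1 / 2) * (trunc p (c + 1) * a + a * trunc p (c + 1) -
      ((∑ ij ∈ antidiagonal 0, ((ij.1 - (c + 1) : ℕ) : ℝ) * (p ij.1 * 2 ^ ij.1) *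
          (p ij.2 * 2 ^ ij.2)) +
        ∑ ij ∈ antidiagonal 0, (p ij.1 * 2 ^ ij.1) * (((ij.2 - (c + 1) : ℕ) : ℝ) *
          (p ij.2 * 2 ^ ij.2)))) = trunc p (c + 1) * a := by
    simp; ring
  rw [h2] at hG1
  have hS := (h.step.trunc_summable c).hasSum
  refine hasSum_le ?_ hG1 hS
  intro k
  rw [step_weight, mul_add ((k - c : ℕ) : ℝ)]
  have h3 : (0 : ℝ) ≤ ((k - c : ℕ) : ℝ) * (if k = 0 then p 0 ^ 2 else 0) := by
    refine mul_nonneg (by positivity) ?_
    split_ifs <;> positivity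
  refine le_trans ?_ (le_add_of_nonneg_right h3)
  rw [← Finset.sum_add_distrib, ← mul_assoc, mul_comm ((k - c : ℕ) : ℝ) (1 / 2), mul_assoc]
  refine mul_le_mul_of_nonneg_left ?_ (by norm_num)
  rw [Finset.mul_sum]
  refine Finset.sum_le_sum fun ij hij => ?_
  have h1 : ij.1 + ij.2 = k + 1 := Finset.HasAntidiagonal.mem_antidiagonal.mp hij
  have h4 : ij.1 - (c + 1) + (ij.2 - (c + 1)) ≤ k - c := by omega
  have h5 : ((ij.1 - (c + 1) : ℕ) : ℝ) + ((ij.2 - (c + 1) : ℕ) : ℝ) ≤ ((k - c : ℕ) : ℝ) := by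
    exact_mod_cast h4
  have h6 := mul_le_mul_of_nonneg_right h5 (mul_nonneg (hf0 ij.1) (hf0 ij.2))
  linarith

theorem Good.le_two {p : ℕ → ℝ} {a : ℝ} (h : Good p a) : a ≤ 2 := by
  have h1 := (h.lin.sub h.expo).add (h.one.mul_left 2)
  have h2 : a - a + 2 * 1 = 2 := by ring
  rw [h2] at h1
  refine hasSum_le ?_ h.expo h1
  intro k
  have h0 := h.nonneg k
  rcases Nat.lt_or_ge k 2 with hk | hk
  · interval_cases k
    · simp; linarith
    · simp
      linarith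
  · have h3 : (2 : ℝ) ≤ (k : ℝ) := by exact_mod_cast hk
    have h4 : 0 ≤ p k * 2 ^ k := mul_nonneg h0 (by positivity)
    nlinarith

theorem Good.one_le {p : ℕ → ℝ} {a : ℝ} (h : Good p a) : 1 ≤ a := by
  refine hasSum_le ?_ h.one h.expo
  intro k
  have h0 := h.nonneg k
  have h3 : (1 : ℝ) ≤ 2 ^ k := one_le_pow₀ (by norm_num)
  nlinarith

theorem Good.trunc_zero {p : ℕ → ℝ} {a : ℝ} (h : Good p a) : trunc p 0 = a := by
  unfold trunc
  simpa using h.lin.tsum_eq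

theorem Good.p0_le {p : ℕ → ℝ} {a : ℝ} (h : Good p a) : p 0 ≤ 1 :=
  le_hasSum h.one 0 fun k _ => h.nonneg k

end Pool.Agent.W859.DR
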